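import Pool.Agent.N926.Cb.A
import Pool.Agent.N926.Cb.B

set_option autoImplicit false

namespace Pool.Agent.Results.MP_cbedb1_nt.SelfConvolution

open Finset

/-- `a_k = C(6k,3k) C(3k,k)` -/
def a (k : ℕ) : ℕ := (6 * k).choose (3 * k) * (3 * k).choose k

/-- `S_n = ∑_{j=0}^n a_j a_{n-j}` -/
def S (n : ℕ) : ℕ := ∑ j ∈ range (n + 1), a j * a (n - j)

open Pool.Agent.N926 in
theorem S_cast (n : ℕ) : (S n : ℚ) = Cb.Sp n := by
  rw [← Cb.S_eq]
  unfold S Cb.Sq Cb.M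
  rw [Nat.sum_antidiagonal_eq_sum_range_succ (fun i j => (1:ℚ) * ((Cb.a i : ℚ) * (Cb.a j : ℚ)))]
  push_cast
  refine sum_congr rfl fun j _ => ?_
  rw [one_mul]
  rfl

open Pool.Agent.N926 in
theorem F_dvd {n : ℕ} (hn : 0 < n) (j : ℕ) (hj : j ≤ n) :
    ∃ z : ℤ, Cb.F n j = ((8 * (2 * n - 1) * (3 * n).choose n : ℕ) : ℚ) * (z : ℚ) := by
  unfold Cb.F
  rw [if_pos hj]
  rcases Nat.lt_or_ge j (n - j) with h | h
  · refine ⟨0, ?_⟩
    rw [Nat.choose_eq_zero_of_lt h]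
    simp
  · obtain ⟨d, hd⟩ : ∃ d, n = j + d := ⟨n - j, by omega⟩
    obtain ⟨m, hm⟩ : ∃ m, j = m + d := ⟨j - d, by omega⟩
    subst hm
    have hn2 : n = m + 2 * d := by omega
    subst hn2
    rw [show m + 2 * d - (m + d) = d by omega]
    obtain ⟨c, hc⟩ := Cb.term_dvd (m := m) (d := d) (by omega)
    refine ⟨(-1) ^ d * c, ?_⟩
    have h2 := congrArg (fun z : ℕ => (z : ℚ)) hc
    unfold Cb.X at h2
    push_cast at h2 ⊢
    unfold Cb.bb Cb.a
    have e : (-432 : ℚ) ^ d = (-1) ^ d * 432 ^ d := by rw [← mul_pow]; norm_num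
    rw [e]
    push_cast
    linear_combination (-1 : ℚ) ^ d * h2

/-- for every `n ≥ 1`, `8 (2n-1) C(3n,n)` divides `S_n` -/
theorem result : ∀ n : ℕ, 0 < n → 8 * (2 * n - 1) * (3 * n).choose n ∣ S n := by
  intro n hn
  have h : ∀ j : ℕ, ∃ z : ℤ, j ≤ n → Pool.Agent.N926.Cb.F n j =
      ((8 * (2 * n - 1) * (3 * n).choose n : ℕ) : ℚ) * (z : ℚ) := by
    intro j
    by_cases hj : j ≤ n
    · obtain ⟨z, hz⟩ := F_dvd hn j hj
      exact ⟨z, fun _ => hz⟩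
    · exact ⟨0, fun h => absurd h hj⟩
  choose z hz using h
  have h1 : (S n : ℚ) = ((8 * (2 * n - 1) * (3 * n).choose n : ℕ) : ℚ) * ((∑ j ∈ range (n+1), z j : ℤ) : ℚ) := by
    rw [S_cast]
    unfold Pool.Agent.N926.Cb.Sp
    push_cast
    rw [mul_sum]
    refine sum_congr rfl fun j hj => ?_
    rw [mem_range] at hj
    have := hz j (by omega)
    push_cast at this
    exact this
  have h2 : (S n : ℤ) = ((8 * (2 * n - 1) * (3 * n).choose n : ℕ) : ℤ) * (∑ j ∈ range (n+1), z j) := by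
    exact_mod_cast h1
  exact Int.natCast_dvd_natCast.1 ⟨_, h2⟩

end Pool.Agent.Results.MP_cbedb1_nt.SelfConvolution
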